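import Pool.Agent.helper84.NR.SpecW

set_option autoImplicit false

namespace Pool.Agent.helper84.NR

open scoped Classical
open Finset

theorem STE_onv {V F : Type} (M : Cyc V F) {f : F} {e : Sym2 V} (h : OnE M f e) {v : V}
    (hv : v ∈ e) : OnV M f v := by
  obtain ⟨k, rfl⟩ := h
  rw [Sym2.mem_iff] at hv
  rcases hv with rfl | rfl
  · exact ⟨k, rfl⟩
  · exact ⟨k + 1, rfl⟩

theorem STE : STE_stmt := by
  intro V F _ _ M x y J hT q hq v hvy e e' hve hve' hce hce' hHe
  by_cases hee : e = e'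
  · rw [← hee]
    exact hHe
  -- the class
  have hpar := h_PAR V F M {f | Quot.mk (lk M (inU M x y J)) f = q} v
  set D := univ.filter (fun e : Sym2 V => v ∈ e ∧
    (∃ f, OnE M.toCyc f e ∧ f ∈ {f | Quot.mk (lk M (inU M x y J)) f = q}) ∧
    ∃ g, OnE M.toCyc g e ∧ g ∉ {f | Quot.mk (lk M (inU M x y J)) f = q}) with hD
  obtain ⟨A, hAx, hAe⟩ := hce.2
  have hvx : v ≠ x := by
    rintro rfl
    exact hce.1 hve
  have heD : e ∈ D := by
    rw [hD, Finset.mem_filter]
    refine ⟨Finset.mem_univ _, hve, ?_, A, hAe, hq.1 A hAx⟩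
    obtain ⟨g, hg, hgq⟩ := hHe
    exact ⟨g, hg, hgq⟩
  have hcard : 1 < D.card := by
    have h1 := Finset.card_pos.mpr ⟨e, heD⟩
    obtain ⟨t, ht⟩ := hpar
    omega
  obtain ⟨e2, he2, hne⟩ := Finset.exists_mem_ne hcard e
  rw [hD, Finset.mem_filter] at he2
  obtain ⟨-, hve2, ⟨f, hfe, hfq⟩, g, hge, hgq⟩ := he2
  have hfq' : Quot.mk (lk M (inU M x y J)) f = q := hfq
  have hU : inU M x y J e2 := by
    by_contra hU
    apply hgq
    have h1 : Quot.mk (lk M (inU M x y J)) f = Quot.mk (lk M (inU M x y J)) g :=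
      Quot.sound ⟨e2, hU, hfe, hge⟩
    exact h1.symm.trans hfq'
  have hc2 : cx M x e2 := by
    rcases hU with h | ⟨B, hB, k, _, hek⟩
    · exact h
    · exfalso
      apply hvy
      refine ⟨B, hT.jy B hB, STE_onv M.toCyc (f := B) (e := e2) ?_ hve2⟩
      exact ⟨st M y B + k, hek⟩
  have htwo := (h_DEG V F M x).2.2.2.2 v hvx ⟨A, hAx, STE_onv M.toCyc hAe hve⟩
  have he2' : e2 = e' := by
    by_contra hne2
    have hsub : ({e, e', e2} : Finset (Sym2 V)) ⊆ univ.filter (fun e : Sym2 V => v ∈ e ∧ x ∉ e ∧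
      ∃ A, OnV M.toCyc A x ∧ OnE M.toCyc A e) := by
      intro z hz
      rw [Finset.mem_insert, Finset.mem_insert, Finset.mem_singleton] at hz
      rw [Finset.mem_filter]
      rcases hz with rfl | rfl | rfl
      · exact ⟨Finset.mem_univ _, hve, hce.1, hce.2⟩
      · exact ⟨Finset.mem_univ _, hve', hce'.1, hce'.2⟩
      · exact ⟨Finset.mem_univ _, hve2, hc2.1, hc2.2⟩
    have h3 := Finset.card_le_card hsub
    rw [htwo] at h3
    have h4 : ({e, e', e2} : Finset (Sym2 V)).card = 3 := by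
      rw [Finset.card_insert_of_notMem, Finset.card_insert_of_notMem, Finset.card_singleton]
      · rw [Finset.mem_singleton]
        exact fun h => hne2 h.symm
      · rw [Finset.mem_insert, Finset.mem_singleton, not_or]
        exact ⟨hee, fun h => hne h.symm⟩
    omega
  rw [← he2']
  exact ⟨f, hfe, hfq'⟩

end Pool.Agent.helper84.NR
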